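import Mathlib

/-!
# Project HS (MP_744226_an, disproof of the weak Gaussian heat smoothing inequality): definitions

Paper proof: HEAT_DISPROOF_helper78.md. The exponent is `p = 4/3`.
-/

set_option autoImplicit false

open MeasureTheory ProbabilityTheory Polynomial Filter Topology

namespace Pool.Agent.H78.HS

/-- the standard Gaussian measure on the line -/
noncomputable abbrev g1 : Measure ℝ := gaussianReal 0 1

/-- the standard Gaussian measure on `ℝ^n` -/
noncomputable abbrev gn (n : ℕ) : Measure (Fin n → ℝ) :=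
  Measure.pi (fun _ : Fin n => gaussianReal 0 1)

/-- the real Hermite polynomial of degree `k` -/
noncomputable def He (k : ℕ) : ℝ[X] := (hermite k).map (Int.castRingHom ℝ)

/-- the Ornstein Uhlenbeck operator on polynomials -/
noncomputable def Nq (p : ℝ[X]) : ℝ[X] := X * derivative p - derivative (derivative p)

/-- the span of the Hermite polynomials of degree at least `d` -/
noncomputable def Td (d : ℕ) : Submodule ℝ ℝ[X] :=
  Submodule.span ℝ {p : ℝ[X] | ∃ k : ℕ, d ≤ k ∧ p = He k}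

/-- the sum of a function over the coordinates -/
def S (n : ℕ) (ψ : ℝ → ℝ) (x : Fin n → ℝ) : ℝ := ∑ j, ψ (x j)

/-- the norm of `L^{4/3}` of the Gaussian measure -/
noncomputable def nrm (n : ℕ) (F : (Fin n → ℝ) → ℝ) : ℝ :=
  (∫ x, |F x| ^ ((4:ℝ) / 3) ∂(gn n)) ^ ((3:ℝ) / 4)

/-- the inequality of the problem for `p = 4/3` with the constant `c` -/
def Q1c (c : ℝ) : Prop :=
  ∀ d : ℕ, 1 ≤ d → ∀ n : ℕ, ∀ f : (Fin n → ℝ) → ℝ,
      f ∈ Submodule.span ℝ {g : (Fin n → ℝ) → ℝ | ∃ α : Fin n → ℕ, d ≤ ∑ i, α i ∧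
          g = fun x => ∏ i, Polynomial.aeval (x i) (Polynomial.hermite (α i))} →
      ENNReal.ofReal (c * (d : ℝ)) *
          MeasureTheory.eLpNorm f (ENNReal.ofReal ((4:ℝ) / 3))
            (MeasureTheory.Measure.pi (fun _ : Fin n => ProbabilityTheory.gaussianReal 0 1))
        ≤ MeasureTheory.eLpNorm
            (fun x => ∑ i, (x i * fderiv ℝ f x (Pi.single i 1)
              - fderiv ℝ (fun y => fderiv ℝ f y (Pi.single i 1)) x (Pi.single i 1)))
            (ENNReal.ofReal ((4:ℝ) / 3))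
            (MeasureTheory.Measure.pi (fun _ : Fin n => ProbabilityTheory.gaussianReal 0 1))

/-- the bump of width `1/L` at `L` -/
noncomputable def hb (L : ℕ) (x : ℝ) : ℝ := Real.exp (-((L:ℝ) ^ 2 * (x - L) ^ 2 / 2))

/-- `x h' - h''` for the bump `h` -/
noncomputable def hN (L : ℕ) (x : ℝ) : ℝ :=
  ((L:ℝ) ^ 2 - (L:ℝ) ^ 2 * (x * (x - L)) - (L:ℝ) ^ 4 * (x - L) ^ 2) * hb L x

/-- the number of coordinates -/
noncomputable def nn (L : ℕ) : ℕ := ⌈(L:ℝ) * Real.exp ((L:ℝ) ^ 2 / 2)⌉₊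

/-- what Q1 would give for the bump: a polynomial close to it in two norms -/
def Good (C0 : ℕ) (C2 : ℝ) (L : ℕ) (q : ℝ[X]) : Prop :=
  q.degree < ((C0 * L ^ 2 : ℕ) : WithBot ℕ) ∧
  (nn L : ℝ) * ∫ x, (q.eval x) ^ 2 ∂g1 ≤ C2 ∧
  (nn L : ℝ) * ∫ x, (q.eval x) ^ 4 ∂g1 ≤ C2 ∧
  ∃ x : ℝ, |x - L| ≤ 1 / L ∧ 1 / 10 ≤ |q.eval x|

end Pool.Agent.H78.HS
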