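import Pool.Agent.H78.HS.Defs

/-!
# Project HS: the statements of the modules
-/

set_option autoImplicit false

open MeasureTheory ProbabilityTheory Polynomial Filter Topology

namespace Pool.Agent.H78.HS

/-- GIP: Gaussian integration by parts -/
def GIPStmt : Prop :=
  ∀ f : ℝ → ℝ, ContDiff ℝ 1 f → (∃ C : ℝ, ∀ x, |f x| ≤ C * Real.exp |x|) →
    (∃ C : ℝ, ∀ x, |deriv f x| ≤ C * Real.exp |x|) →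
    Integrable (fun x => x * f x) g1 ∧ Integrable (fun x => deriv f x) g1 ∧
      ∫ x, x * f x ∂g1 = ∫ x, deriv f x ∂g1

/-- HRS: Hermite polynomials and integrability of polynomials -/
def HRSStmt : Prop :=
  (∀ (p : ℝ[X]) (q : ENNReal), q ≠ ⊤ → MemLp (fun x => p.eval x) q g1) ∧
  (∀ j k : ℕ, ∫ x, (He j).eval x * (He k).eval x ∂g1 = if j = k then (k.factorial : ℝ) else 0) ∧
  (∀ k : ℕ, Nq (He k) = (k:ℝ) • He k) ∧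
  (∀ k : ℕ, derivative (He (k + 1)) = ((k:ℝ) + 1) • He k) ∧
  (∀ k : ℕ, (He k).degree = k) ∧
  (∀ (d : ℕ) (p : ℝ[X]), p.degree < d → ∃ a : ℕ → ℝ, p = ∑ k ∈ Finset.range d, a k • He k)

/-- BER: the derivative of a polynomial -/
def BERStmt : Prop :=
  ∀ (d : ℕ) (p : ℝ[X]), p.degree < d →
    ∫ x, ((derivative p).eval x) ^ 2 ∂g1 ≤ d * ∫ x, (p.eval x) ^ 2 ∂g1

/-- XPB: multiplication by `x` -/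
def XPBStmt : Prop :=
  ∀ (d : ℕ) (p : ℝ[X]), 1 ≤ d → p.degree < d →
    ∫ x, (x * p.eval x) ^ 2 ∂g1 ≤ 9 * d * ∫ x, (p.eval x) ^ 2 ∂g1

/-- RLB: pointwise bound on the real line -/
def RLBStmt : Prop :=
  ∀ (d : ℕ) (p : ℝ[X]), 1 ≤ d → p.degree < d → ∀ x : ℝ,
    |p.eval x| ≤ 4 * d * Real.exp (x ^ 2 / 4) * Real.sqrt (∫ x, (p.eval x) ^ 2 ∂g1)

/-- PWB: pointwise bound in the complex plane, from the `L^2` norm -/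
def PWBStmt : Prop :=
  ∀ (d : ℕ) (p : ℝ[X]), 1 ≤ d → p.degree < d → ∀ z : ℂ,
    ‖aeval z p‖ ≤ 4 * d * Real.exp (z.re ^ 2 / 4 + Real.sqrt d * |z.im|) *
      Real.sqrt (∫ x, (p.eval x) ^ 2 ∂g1)

/-- L4B: pointwise bound in the complex plane, from the `L^4` norm -/
def L4BStmt : Prop :=
  ∀ ε : ℝ, 0 < ε → ε ≤ 1 / 4 → ∃ C : ℝ, 0 < C ∧
    ∀ (d : ℕ) (p : ℝ[X]), 1 ≤ d → p.degree < d → ∀ z : ℂ,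
    ‖aeval z p‖ ≤ C * d * Real.exp ((1 / 8 + ε) * z.re ^ 2 + Real.sqrt d * |z.im|) *
      (∫ x, (p.eval x) ^ 4 ∂g1) ^ ((1:ℝ) / 4)

/-- KNA: the comparison with `z log z` in the upper half disc -/
def KNAStmt : Prop :=
  ∀ (k K b M η r : ℝ), 0 < k → 0 ≤ K → 0 < M → 0 < r → ∀ f : ℂ → ℂ, Differentiable ℂ f →
    (∀ z : ℂ, ‖z‖ ≤ r → 0 ≤ z.im →
      ‖f z‖ ≤ Real.exp (M * (b * z.re - k * |z.re| + K * z.im + η))) →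
    ∀ z : ℂ, ‖z‖ ≤ r → 0 < z.im →
      ‖f z‖ ≤ Real.exp (M * (b * z.re + k * (-z.re + (2 / Real.pi) *
        (z.im * Real.log (‖z‖ / r) + z.re * z.arg)) + K * z.im + η))

/-- KNB: the kink lemma -/
def KNBStmt : Prop :=
  ∀ K : ℝ, 0 ≤ K → ∃ y η M0 : ℝ, 0 < y ∧ 0 < η ∧ 1 ≤ M0 ∧ ∀ M : ℝ, M0 ≤ M →
    ∀ f : ℂ → ℂ, Differentiable ℂ f →
    (∀ z : ℂ, ‖z‖ ≤ 1 / 4 →
      ‖f z‖ ≤ Real.exp (M * (3 / 8 * z.re - 1 / 16 * |z.re| + K * |z.im| + η))) →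
    ∀ t : ℝ, |t| ≤ 1 / M → ‖f (t : ℂ)‖ ≤ Real.exp (-(y * M))

/-- VBE: the inequality of von Bahr and Esseen for `p = 4/3` -/
def VBEStmt : Prop :=
  ∀ (n : ℕ) (ψ : ℝ → ℝ), MemLp ψ 2 g1 → ∫ x, ψ x ∂g1 = 0 →
    ∫ x, |S n ψ x| ^ ((4:ℝ) / 3) ∂(gn n) ≤ 2 * n * ∫ x, |ψ x| ^ ((4:ℝ) / 3) ∂g1

/-- SUM: moments of sums of independent functions -/
def SUMStmt : Prop :=
  (∀ (n : ℕ) (ξ : ℝ → ℝ), MemLp ξ 2 g1 → MemLp (S n ξ) 2 (gn n)) ∧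
  (∀ (n : ℕ) (ξ : ℝ → ℝ), MemLp ξ 4 g1 → MemLp (S n ξ) 4 (gn n)) ∧
  (∀ (n : ℕ) (ξ : ℝ → ℝ), MemLp ξ 4 g1 → ∫ x, ξ x ∂g1 = 0 →
    ∫ x, (S n ξ x) ^ 4 ∂(gn n) ≤
      n * ∫ x, (ξ x) ^ 4 ∂g1 + 3 * (n:ℝ) ^ 2 * (∫ x, (ξ x) ^ 2 ∂g1) ^ 2) ∧
  (∀ (n : ℕ) (ξ ψ : ℝ → ℝ), MemLp ξ 2 g1 → MemLp ψ 2 g1 → ∫ x, ξ x ∂g1 = 0 →
    ∫ x, ψ x ∂g1 = 0 → ∫ x, S n ξ x * S n ψ x ∂(gn n) = n * ∫ x, ξ x * ψ x ∂g1)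

/-- TRI: the norm of a sum in `L^{4/3}` for `φ = u + v` -/
def TRIStmt : Prop :=
  ∀ (n : ℕ) (u v : ℝ → ℝ), MemLp u 2 g1 → MemLp v 2 g1 → ∫ x, (u x + v x) ∂g1 = 0 →
    nrm n (S n (fun x => u x + v x)) ≤ Real.sqrt n * Real.sqrt (∫ x, (u x) ^ 2 ∂g1) +
      4 * (n:ℝ) ^ ((3:ℝ) / 4) * (∫ x, |v x| ^ ((4:ℝ) / 3) ∂g1) ^ ((3:ℝ) / 4)

/-- QIN: the inequality of the problem for sums of polynomials in one coordinate -/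
def QINStmt : Prop :=
  ∀ c : ℝ, 0 < c → Q1c c → ∀ (d n : ℕ), 1 ≤ d → ∀ ψ ∈ Td d,
    c * d * nrm n (S n (fun x => ψ.eval x)) ≤ nrm n (S n (fun x => (Nq ψ).eval x))

/-- IBP: integration by parts against the bump -/
def IBPStmt : Prop :=
  ∀ (L : ℕ) (ψ : ℝ[X]), 1 ≤ L →
    ∫ x, hb L x * (Nq ψ).eval x ∂g1 = ∫ x, hN L x * ψ.eval x ∂g1

/-- BMP: integrals of the bump -/
def BMPStmt : Prop :=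
  ∃ C1 : ℝ, 1 ≤ C1 ∧ ∀ L : ℕ, 1 ≤ L →
    (nn L : ℝ) * ∫ x, (hb L x) ^ 2 ∂g1 ≤ C1 ∧
    (nn L : ℝ) * ∫ x, (hb L x) ^ 4 ∂g1 ≤ C1 ∧
    (nn L : ℝ) * ∫ x, (hN L x) ^ 2 ∂g1 ≤ C1 * (L:ℝ) ^ 4 ∧
    (nn L : ℝ) * ∫ x, (hN L x) ^ 4 ∂g1 ≤ C1 * (L:ℝ) ^ 8 ∧
    1 / C1 ≤ (nn L : ℝ) * g1.real (Set.Icc ((L:ℝ) - 1 / L) ((L:ℝ) + 1 / L))

/-- DEN: completeness of the Hermite polynomials -/
def DENStmt : Prop :=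
  ∀ (d : ℕ) (φ : ℝ → ℝ), MemLp φ 2 g1 → (∀ k < d, ∫ x, φ x * (He k).eval x ∂g1 = 0) →
    ∀ ε : ℝ, 0 < ε → ∃ r ∈ Td d, ∫ x, (φ x - r.eval x) ^ 2 ∂g1 < ε

/-- STR: the inequality which Q1 gives for the bump -/
def STRStmt : Prop :=
  ∃ C3 : ℝ, 0 < C3 ∧ ∀ c : ℝ, 0 < c → Q1c c → ∀ (L d : ℕ), 1 ≤ L → 1 ≤ d →
    ∀ φ : ℝ → ℝ, MemLp φ 2 g1 → (∀ k < d, ∫ x, φ x * (He k).eval x ∂g1 = 0) →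
    (nn L : ℝ) * ∫ x, hb L x * φ x ∂g1 ≤ C3 * (L:ℝ) ^ 2 / (c * d) * nrm (nn L) (S (nn L) φ)

/-- MIN: the Euler Lagrange equation of the best approximation -/
def MINStmt : Prop :=
  ∀ (h : ℝ → ℝ), Continuous h → (∃ B : ℝ, ∀ x, |h x| ≤ B) → ∀ d : ℕ, 1 ≤ d →
    ∃ q : ℝ[X], q.degree < d ∧ ∀ r : ℝ[X], r.degree < d →
      ∫ x, ((h x - q.eval x) + (h x - q.eval x) ^ 3) * r.eval x ∂g1 = 0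

/-- ALG: the numerical lemma -/
def ALGStmt : Prop :=
  ∀ a b Λ : ℝ, 0 ≤ a → 0 ≤ b → 0 ≤ Λ → Λ ≤ 1 → a ^ 2 + b ^ 4 ≤ Λ * (a + 4 * b ^ 3) →
    a ≤ 400 * Λ ∧ b ^ 4 ≤ 10000 * Λ ^ 2

/-- UPB: Q1 gives a polynomial close to the bump -/
def UPBStmt : Prop :=
  ∀ c : ℝ, 0 < c → Q1c c → ∃ (C0 : ℕ) (C2 : ℝ), 1 ≤ C0 ∧ 0 < C2 ∧ ∀ L : ℕ, 1 ≤ L →
    ∃ q : ℝ[X], Good C0 C2 L q

/-- KIL: there is no such polynomial if `L` is large -/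
def KILStmt : Prop :=
  ∀ (C0 : ℕ) (C2 : ℝ), 1 ≤ C0 → 0 < C2 → ∃ L : ℕ, 1 ≤ L ∧ ∀ q : ℝ[X], ¬ Good C0 C2 L q

/-- the assembly -/
theorem final_thm (hU : UPBStmt) (hK : KILStmt) : ¬ ∃ c : ℝ, 0 < c ∧ Q1c c := by
  rintro ⟨c, hc, hQ⟩
  obtain ⟨C0, C2, hC0, hC2, H⟩ := hU c hc hQ
  obtain ⟨L, hL, hn⟩ := hK C0 C2 hC0 hC2
  obtain ⟨q, hq⟩ := H L hL
  exact hn q hq

end Pool.Agent.H78.HS
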